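import Pool.Agent.H.MP_17ecd9_gt.A

namespace Pool.Agent.Results.MP_17ecd9_gt.Star
open Set MeasureTheory TopologicalSpace Filter Topology Matrix
open scoped symmDiff ENNReal

noncomputable def Zm {X : Type*} [MetricSpace X] (A : Finset X) : Matrix A A ℝ :=
  Matrix.of fun a b => Real.exp (-dist (a : X) (b : X))

open Classical in
noncomputable def mag {X : Type*} [MetricSpace X] (A : Finset X) : ℝ :=
  ∑ a, ∑ b, (Zm A)⁻¹ a b

noncomputable def magC {X : Type*} [MetricSpace X] (K : Set X) : ℝ≥0∞ :=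
  ⨆ (A : Finset X) (_ : A.Nonempty) (_ : (A : Set X) ⊆ K), ENNReal.ofReal (mag A)

def Tractable (X : Type*) [MetricSpace X] : Prop :=
  (∀ A : Finset X, A.Nonempty → (Zm A).PosDef) ∧
  (∀ s : Set X, IsClosed s → Bornology.IsBounded s → IsCompact s) ∧
  ∀ (x : X) (r : ℝ), magC (Metric.closedBall x r) < ⊤

theorem mag_def {X : Type*} [MetricSpace X] (A : Finset X) [i : DecidableEq A] :
    mag A = ∑ x, ((Zm A)⁻¹ *ᵥ fun _ => 1) x := by
  simp only [mag, mulVec, dotProduct, mul_one]
  exact congrArg (fun j : DecidableEq A => ∑ a, ∑ b, (@Inv.inv _ (@Matrix.inv _ _ _ j _) (Zm A)) a b)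
    (Subsingleton.elim _ _)

theorem mag_eq {X : Type*} [MetricSpace X] {A : Finset X} (h : (Zm A).PosDef) (w : X → ℝ)
    (hw : ∀ x ∈ A, ∑ y ∈ A, Real.exp (-dist x y) * w y = 1) : mag A = ∑ y ∈ A, w y := by
  classical
  have h1 : Zm A *ᵥ (fun y : A => w y) = fun _ => 1 := funext fun x => by
    rw [← hw x x.2, ← Finset.sum_coe_sort A]; rfl
  have h2 : (Zm A)⁻¹ *ᵥ (fun _ => 1) = fun y : A => w y := by
    rw [← h1, mulVec_mulVec, nonsing_inv_mul _ ((isUnit_iff_isUnit_det _).1 h.isUnit), one_mulVec]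
  rw [← Finset.sum_coe_sort A, mag_def, h2]

noncomputable abbrev μ : Measure ℝ := volume.restrict (Icc (0 : ℝ) 1)

instance : IsProbabilityMeasure μ := ⟨by simp⟩

noncomputable def ind (a b : ℝ) : Lp ℝ 1 μ :=
  indicatorConstLp 1 (measurableSet_Ico (a := a) (b := b)) (measure_ne_top _ _) 1

theorem dist_ind (a b c d : ℝ) : dist (ind a b) (ind c d) = μ.real (Ico a b ∆ Ico c d) := by
  rw [ind, ind, dist_indicatorConstLp_eq_norm, norm_indicatorConstLp one_ne_zero ENNReal.one_ne_top]
  simp

noncomputable def lf (p : Σ n : ℕ, Fin (n + 1)) : Lp ℝ 1 μ :=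
  ind (p.2 / (p.1 + 1)) ((p.2 + 1) / (p.1 + 1))

theorem m1 (n : ℕ) (i : Fin (n + 1)) :
    μ.real (Ico ((i : ℝ) / (n + 1)) ((i + 1) / (n + 1))) = 1 / (n + 1) := by
  have h : (i : ℝ) + 1 ≤ n + 1 := by exact_mod_cast i.2
  rw [measureReal_restrict_apply measurableSet_Ico, inter_eq_left.2 (Ico_subset_Icc_self.trans
    (Icc_subset_Icc (by positivity) (div_le_one_of_le₀ h (by positivity)))), Real.volume_real_Ico,
    ← sub_div, add_sub_cancel_left, max_eq_left (by positivity)]

theorem d0 (n : ℕ) (i : Fin (n + 1)) : dist (ind 0 0) (lf ⟨n, i⟩) = 1 / (n + 1) := by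
  rw [lf, dist_ind, Ico_self, ← bot_eq_empty, bot_symmDiff, m1]

theorem d1 (n : ℕ) (i j : Fin (n + 1)) (h : i ≠ j) :
    dist (lf ⟨n, i⟩) (lf ⟨n, j⟩) = 1 / (n + 1) + 1 / (n + 1) := by
  have hd : Disjoint (Ico ((i : ℝ) / (n + 1)) ((i + 1) / (n + 1)))
      (Ico ((j : ℝ) / (n + 1)) ((j + 1) / (n + 1))) := by
    wlog hij : i < j generalizing i j
    · exact (this j i h.symm ((not_lt.1 hij).lt_of_ne h.symm)).symm
    have : (i : ℝ) + 1 ≤ j := by exact_mod_cast hij
    exact disjoint_left.2 fun x h1 h2 => absurd (h1.2.trans_le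
      ((div_le_div_of_nonneg_right this (by positivity)).trans h2.1)) (lt_irrefl _)
  rw [lf, lf, dist_ind, hd.symmDiff_eq_sup]
  exact (measureReal_union hd measurableSet_Ico).trans (by rw [m1, m1])

theorem result : ∃ T : Set (Lp ℝ 1 (volume.restrict (Icc (0 : ℝ) 1))), Tractable T ∧
    ¬ Continuous (fun K : {K : NonemptyCompacts T // (K : Set T).Finite} => mag K.2.toFinset) ∧
    ¬ Continuous (fun K : NonemptyCompacts T => magC (K : Set T)) := by
  classical
  let T : Set (Lp ℝ 1 μ) := insert (ind 0 0) (range lf)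
  have key : ∀ (A : Finset T) (w : A → ℝ), (∑ x, w x) ^ 2 ≤ Real.exp 1 * (w ⬝ᵥ Zm A *ᵥ w) ∧
      (w ≠ 0 → 0 < w ⬝ᵥ Zm A *ᵥ w) := by
    intro A w
    have : ∀ x : A, ∃ a b, (x.1.1 : Lp ℝ 1 μ) = ind a b := fun x => by
      rcases x.1.2 with h | ⟨p, h⟩
      · exact ⟨_, _, h⟩
      · exact ⟨_, _, h.symm⟩
    choose a b hab using this
    simpa only [dotProduct, mulVec, Finset.mul_sum, Zm, of_apply] using
      H.MP_17ecd9_gt.sets μ (fun x : A => Ico (a x) (b x)) (fun _ => measurableSet_Ico)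
        (fun x y => dist x.1 y.1) (fun x y => by rw [Subtype.dist_eq, hab, hab, dist_ind])
        (fun x y h => Subtype.ext (dist_eq_zero.1 h)) w
  have pd : ∀ A : Finset T, (Zm A).PosDef := fun A =>
    posDef_iff_dotProduct_mulVec.2 ⟨by ext x y; simp [Zm, dist_comm], fun w hw => (key A w).2 hw⟩
  have ub : ∀ A : Finset T, mag A ≤ Real.exp 1 := fun A => by
    have h1 := (key A ((Zm A)⁻¹ *ᵥ fun _ => 1)).1
    rw [mulVec_mulVec, mul_nonsing_inv _ ((isUnit_iff_isUnit_det _).1 (pd A).isUnit),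
      one_mulVec] at h1
    have h2 := mag_def A
    simp only [dotProduct, mul_one, ← h2] at h1
    nlinarith [Real.exp_pos 1]
  have hT : IsCompact T := Tendsto.isCompact_insert_range_of_cofinite (by
    rw [Metric.tendsto_nhds]
    intro ε hε
    obtain ⟨N, hN⟩ := exists_nat_one_div_lt hε
    refine ((Finset.range N).sigma
      fun n => (Finset.univ : Finset (Fin (n + 1)))).finite_toSet.subset ?_
    rintro ⟨n, i⟩ h
    refine Finset.mem_sigma.2 ⟨Finset.mem_range.2 (not_le.1 fun h' => h ?_), Finset.mem_univ _⟩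
    rw [mem_ofPred_eq, dist_comm, d0]
    exact (Nat.one_div_le_one_div h').trans_lt hN)
  have := isCompact_iff_compactSpace.1 hT
  let o : T := ⟨ind 0 0, Or.inl rfl⟩
  let l : ∀ n, Fin (n + 1) → T := fun n i => ⟨lf ⟨n, i⟩, Or.inr ⟨_, rfl⟩⟩
  have e0 : ∀ n i, dist o (l n i) = 1 / (n + 1) := d0
  have e1 : ∀ n i j, i ≠ j → dist (l n i) (l n j) = 1 / (n + 1) + 1 / (n + 1) := d1
  have pos : ∀ n : ℕ, (0 : ℝ) < 1 / (n + 1) := fun n => Nat.one_div_pos_of_nat
  have li : ∀ n, Function.Injective (l n) := fun n i j h => by_contra fun h' => by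
    have := e1 n i j h'
    rw [h, dist_self] at this
    linarith [pos n]
  have lo : ∀ n i, l n i ≠ o := fun n i h => by
    have := e0 n i
    rw [h, dist_self] at this
    linarith [pos n]
  let A : ℕ → Finset T := fun n => insert o (Finset.univ.image (l n))
  have sm : ∀ n (F : T → ℝ), ∑ y ∈ A n, F y = F o + ∑ i, F (l n i) := fun n F => by
    rw [Finset.sum_insert (by simpa using lo n), Finset.sum_image fun i _ j _ h => li n h]
  have lb : ∀ n, 5 / 4 ≤ mag (A n) := fun n => by
    set q := Real.exp (-(1 / ((n : ℝ) + 1))) with hq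
    have q0 : 0 < q := Real.exp_pos _
    have q1 : q * (1 / ((n : ℝ) + 1) + 1) ≤ 1 := by
      have := mul_le_mul_of_nonneg_left (Real.add_one_le_exp (1 / ((n : ℝ) + 1))) q0.le
      rwa [hq, ← Real.exp_add, neg_add_cancel, Real.exp_zero] at this
    rw [mag_eq (pd _) (fun y => if y = o then 1 - (n + 1) * q / (1 + q) else 1 / (1 + q)), sm]
    · simp only [if_true, lo, if_false, Finset.sum_const, Finset.card_univ, Fintype.card_fin,
        nsmul_eq_mul]
      push_cast
      have h1 : (0 : ℝ) ≤ n := n.cast_nonneg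
      have h2 : q * (n + 2) ≤ n + 1 := by
        have := mul_le_mul_of_nonneg_right q1 (show (0 : ℝ) ≤ n + 1 by positivity)
        field_simp at this
        linarith
      have h3 : (1 : ℝ) / 4 ≤ (n + 1) * (1 - q) / (1 + q) := by
        rw [le_div_iff₀ (by positivity)]
        nlinarith
      have h4 : 1 - (n + 1) * q / (1 + q) + (n + 1) * (1 / (1 + q)) =
        1 + (n + 1) * (1 - q) / (1 + q) := by field_simp; ring
      linarith
    · intro x hx
      rw [sm]
      simp only [if_true, lo, if_false]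
      rcases Finset.mem_insert.1 hx with rfl | hx
      · simp only [e0, ← hq, dist_self, Finset.sum_const, Finset.card_univ, Fintype.card_fin,
          nsmul_eq_mul]
        push_cast
        simp only [neg_zero, Real.exp_zero]
        field_simp
        ring
      · obtain ⟨i, -, rfl⟩ := Finset.mem_image.1 hx
        rw [← Finset.add_sum_erase _ _ (Finset.mem_univ i), Finset.sum_congr rfl
          (g := fun _ => q * q * (1 / (1 + q))) fun j hj => by
            rw [e1 n i j (Finset.ne_of_mem_erase hj).symm, neg_add, Real.exp_add]]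
        simp only [dist_comm (l n i) o, e0, ← hq, dist_self, Finset.sum_const,
          Finset.card_erase_of_mem (Finset.mem_univ i), Finset.card_univ, Fintype.card_fin,
          nsmul_eq_mul, Nat.add_sub_cancel, neg_zero, Real.exp_zero]
        field_simp
        ring
  have m0 : mag ({o} : Finset T) = 1 := by
    rw [mag_eq (pd _) (fun _ => 1) (by simp)]; simp
  let K : ℕ → NonemptyCompacts T := fun n =>
    ⟨⟨A n, (A n).finite_toSet.isCompact⟩, o, Finset.mem_insert_self _ _⟩
  let K0 : NonemptyCompacts T := ⟨⟨{o}, isCompact_singleton⟩, singleton_nonempty _⟩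
  have hK : Tendsto K atTop (𝓝 K0) := by
    rw [tendsto_iff_dist_tendsto_zero]
    refine squeeze_zero (fun _ => dist_nonneg) (fun n => ?_)
      tendsto_one_div_add_atTop_nhds_zero_nat
    refine Metric.hausdorffDist_le_of_mem_dist (pos n).le (fun x hx => ⟨o, rfl, ?_⟩)
      fun x hx => ⟨o, show o ∈ A n from Finset.mem_insert_self _ _, by
        rw [show x = o from hx, dist_self]; exact (pos n).le⟩
    rcases Finset.mem_insert.1 (show x ∈ A n from hx) with rfl | hx
    · rw [dist_self]; exact (pos n).le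
    · obtain ⟨i, -, rfl⟩ := Finset.mem_image.1 hx
      rw [dist_comm, e0]
  refine ⟨T, ⟨fun A _ => pd A, fun s hs _ => hs.isCompact, fun x r => ?_⟩, fun h => ?_, fun h => ?_⟩
  · exact (iSup_le fun A => iSup₂_le fun _ _ => ENNReal.ofReal_le_ofReal (ub A)).trans_lt
      ENNReal.ofReal_lt_top
  · have t : Tendsto (fun n => (⟨K n, (A n).finite_toSet⟩ :
        {K : NonemptyCompacts T // (K : Set T).Finite})) atTop (𝓝 ⟨K0, finite_singleton o⟩) :=
      tendsto_subtype_rng.2 hK
    have := ge_of_tendsto' (b := 5 / 4) ((h.tendsto _).comp t) fun n => by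
      refine (lb n).trans_eq ?_
      exact congrArg mag (Finset.finite_toSet_toFinset _).symm
    rw [show (finite_singleton o : (K0 : Set T).Finite).toFinset = {o} from
      Set.Finite.toFinset_singleton _, m0] at this
    norm_num at this
  · have h1 := ge_of_tendsto' (b := ENNReal.ofReal (5 / 4)) ((h.tendsto _).comp hK) fun n =>
      (ENNReal.ofReal_le_ofReal (lb n)).trans (le_iSup_of_le (A n)
        (le_iSup₂_of_le ⟨o, Finset.mem_insert_self _ _⟩ Subset.rfl le_rfl))
    have h2 : magC (K0 : Set T) ≤ ENNReal.ofReal 1 := iSup_le fun B => iSup₂_le fun h1 h2 => by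
      rw [show B = {o} from h1.subset_singleton_iff.1 fun x hx => Finset.mem_singleton.2 (h2 hx), m0]
    have := (ENNReal.ofReal_le_ofReal_iff zero_le_one).1 (h1.trans h2)
    norm_num at this

end Pool.Agent.Results.MP_17ecd9_gt.Star
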